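import Mathlib

/-!
The subgroups of the multiplicative group of the rational numbers given by sets of primes.
-/

set_option autoImplicit false

namespace Pool.Agent.Y490.HG

/-- The rational numbers whose valuation vanishes at all primes outside `T`. -/
def HS (T : Set ℕ) : Subgroup ℚˣ where
  carrier := {r | ∀ p : ℕ, p.Prime → p ∉ T → padicValRat p (r : ℚ) = 0}
  one_mem' := by intro p _ _; simp
  mul_mem' := by
    intro a b ha hb p hp hpT
    haveI := Fact.mk hp
    rw [Units.val_mul, padicValRat.mul a.ne_zero b.ne_zero, ha p hp hpT, hb p hp hpT, add_zero]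
  inv_mem' := by
    intro a ha p hp hpT
    haveI := Fact.mk hp
    rw [Units.val_inv_eq_inv_val, padicValRat.inv, ha p hp hpT, neg_zero]

theorem HS_mem {T : Set ℕ} {l : ℕ} (hl : l.Prime) (h : l ∈ T) : ∃ r ∈ HS T, (r : ℚ) = l := by
  have h0 : (l : ℚ) ≠ 0 := by exact_mod_cast hl.ne_zero
  refine ⟨Units.mk0 (l : ℚ) h0, ?_, rfl⟩
  intro p hp hpT
  have hne : p ≠ l := fun e => hpT (e ▸ h)
  haveI := Fact.mk hp
  haveI := Fact.mk hl
  rw [Units.val_mk0, padicValRat.of_nat, padicValNat_primes hne]
  rfl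

theorem of_HS_mem {T : Set ℕ} {l : ℕ} (hl : l.Prime) (h : ∃ r ∈ HS T, (r : ℚ) = l) : l ∈ T := by
  obtain ⟨r, hr, hrl⟩ := h
  by_contra hcon
  have h1 := hr l hl hcon
  haveI := Fact.mk hl
  rw [hrl, padicValRat.of_nat, padicValNat_self] at h1
  norm_num at h1

/-- The odd primes `3, 5, 7, …`. -/
noncomputable def q (n : ℕ) : ℕ := Nat.nth Nat.Prime (n + 1)

theorem q_prime (n : ℕ) : (q n).Prime := Nat.prime_nth_prime (n + 1)

theorem q_injective : Function.Injective q := by
  intro m n h
  have := Nat.nth_injective Nat.infinite_setOf_prime h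
  omega

theorem q_odd (n : ℕ) : Odd (q n) := by
  rcases (q_prime n).eq_two_or_odd' with h | h
  · exfalso
    have h1 : Nat.nth Nat.Prime 0 < Nat.nth Nat.Prime (n + 1) :=
      Nat.nth_strictMono Nat.infinite_setOf_prime (Nat.succ_pos n)
    have h2 := (Nat.prime_nth_prime 0).two_le
    unfold q at h
    omega
  · exact h

end Pool.Agent.Y490.HG
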