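import Pool.Agent.Y490.HG.Loop
import Pool.Agent.Y490.HG.Val

/-!
Closed lifts of paths give lifts of loops parametrized by the circle; normal subgroups of the
Haefliger group without transverse classes.
-/

set_option autoImplicit false

open Pool.Agent.Helper240

namespace Pool.Agent.Y490.HG

/-- The free homotopy class of the loop `g` is the conjugacy class of `x`: for some path `Q` from
the base point `b` to the base point of `g` one has `x = [Q] [g] [Q]⁻¹`. -/
def Represents {b : BGamma} (x : FundamentalGroup BGamma b) (g : C(Circle, BGamma)) : Prop :=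
  ∃ Q : Path b (g (Circle.exp 0)), x = (Path.Homotopic.Quotient.mk Q).trans
    ((Path.Homotopic.Quotient.mk (loopPath g)).trans (Path.Homotopic.Quotient.mk Q).symm)

/-- A closed lift of the path of a loop gives a lift on the circle. -/
theorem circle_lift {E : Type*} [TopologicalSpace E] (p : E → BGamma) (g : C(Circle, BGamma))
    (F : C(unitInterval, E)) (hF : ∀ s, p (F s) = loopPath g s) (hc : F 1 = F 0) :
    ∃ F' : C(Circle, E), ∀ z, p (F' z) = g z := by
  let φ : ℝ → E := fun s => F (Set.projIcc 0 1 zero_le_one s)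
  have hφ : Continuous φ := F.continuous.comp continuous_projIcc
  have hφ01 : φ 0 = φ 1 := by
    show F (Set.projIcc 0 1 zero_le_one 0) = F (Set.projIcc 0 1 zero_le_one 1)
    rw [Set.projIcc_left, Set.projIcc_right]
    exact hc.symm
  let Φ : AddCircle (1 : ℝ) → E := AddCircle.liftIco 1 0 φ
  have hΦ : Continuous Φ := AddCircle.liftIco_zero_continuous hφ01 hφ.continuousOn
  let e := AddCircle.homeomorphCircle (one_ne_zero (α := ℝ))
  refine ⟨⟨fun z => Φ (e.symm z), hΦ.comp e.symm.continuous⟩, fun z => ?_⟩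
  show p (Φ (e.symm z)) = g z
  obtain ⟨x, rfl⟩ := e.surjective z
  rw [e.symm_apply_apply]
  obtain ⟨s, hs, rfl⟩ : ∃ s ∈ Set.Ico (0 : ℝ) 1, (s : AddCircle (1 : ℝ)) = x := by
    refine ⟨(AddCircle.equivIco 1 0 x : ℝ), ?_, ?_⟩
    · have := (AddCircle.equivIco 1 0 x).2
      exact ⟨this.1, by linarith [this.2]⟩
    · exact (AddCircle.equivIco 1 0).symm_apply_apply x
  have h1 : Φ (s : AddCircle (1 : ℝ)) = φ s := AddCircle.liftIco_zero_coe_apply hs
  have hs' : s ∈ Set.Icc (0 : ℝ) 1 := ⟨hs.1, hs.2.le⟩
  have h2 : e (s : AddCircle (1 : ℝ)) = Circle.exp (2 * Real.pi * s) := by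
    show AddCircle.homeomorphCircle (one_ne_zero (α := ℝ)) (s : AddCircle (1 : ℝ)) = _
    rw [AddCircle.homeomorphCircle_apply, AddCircle.toCircle_apply_mk, div_one]
  rw [h1, h2]
  show p (F (Set.projIcc 0 1 zero_le_one s)) = _
  rw [hF]
  show g (Circle.exp (2 * Real.pi * ((Set.projIcc 0 1 zero_le_one s : unitInterval) : ℝ))) = _
  rw [Set.projIcc_of_mem zero_le_one hs']

section monodromy

variable {E X : Type*} [TopologicalSpace E] [TopologicalSpace X] {p : E → X}

/-- Monodromy along a conjugated loop fixes a point iff monodromy along the loop fixes the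
transported point. -/
theorem monodromy_conj (cov : IsCoveringMap p) {b x : X} (q : Path.Homotopic.Quotient b x)
    (ρ : Path.Homotopic.Quotient x x) (e : p ⁻¹' {b}) :
    cov.monodromy (q.trans (ρ.trans q.symm)) e = e ↔
      cov.monodromy ρ (cov.monodromy q e) = cov.monodromy q e := by
  rw [cov.monodromy_trans_apply, cov.monodromy_trans_apply]
  have h1 : ∀ z, cov.monodromy q.symm (cov.monodromy q z) = z := by
    intro z
    rw [← cov.monodromy_trans_apply, Path.Homotopic.Quotient.trans_symm]
    exact congrFun cov.monodromy_refl z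
  have h2 : ∀ z, cov.monodromy q (cov.monodromy q.symm z) = z := by
    intro z
    rw [← cov.monodromy_trans_apply, Path.Homotopic.Quotient.symm_trans]
    exact congrFun cov.monodromy_refl z
  constructor
  · intro h
    have := congrArg (cov.monodromy q) h
    rwa [h2] at this
  · intro h
    rw [h, h1]

/-- If the monodromy along a loop fixes a point, there is a closed lift. -/
theorem closed_lift (cov : IsCoveringMap p) {x : X} (ρ : Path x x) (e : p ⁻¹' {x})
    (h : cov.monodromy (Path.Homotopic.Quotient.mk ρ) e = e) :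
    ∃ F : C(unitInterval, E), (∀ s, p (F s) = ρ s) ∧ F 1 = F 0 := by
  have h0 : (ρ : C(unitInterval, X)) 0 = p e := ρ.source.trans e.2.symm
  refine ⟨cov.liftPath ρ e h0, fun s => congrFun (cov.liftPath_lifts ρ e h0) s, ?_⟩
  rw [cov.liftPath_zero]
  exact congrArg Subtype.val h

/-- A closed lift shows that the monodromy fixes a point. -/
theorem monodromy_of_closed (cov : IsCoveringMap p) {x : X} (ρ : Path x x) (e : p ⁻¹' {x})
    (F : C(unitInterval, E)) (hF : ∀ s, p (F s) = ρ s) (h0 : F 0 = e) (h1 : F 1 = e) :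
    cov.monodromy (Path.Homotopic.Quotient.mk ρ) e = e := by
  have h0' : (ρ : C(unitInterval, X)) 0 = p e := ρ.source.trans e.2.symm
  have hlift : F = cov.liftPath ρ e h0' :=
    (cov.eq_liftPath_iff' h0').mpr ⟨funext hF, h0⟩
  apply Subtype.ext
  show cov.liftPath ρ e h0' 1 = e
  rw [← hlift, h1]

end monodromy

/-- The power loops, transported to the base point `b`, and normal subgroups without transverse
classes which contain exactly the prescribed ones. -/
theorem main2 (b : BGamma) : ∃ c : ℕ → FundamentalGroup BGamma b,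
    (∀ n, Represents (c n) (powLoop (q n) (q_odd n))) ∧ ∀ S : Set ℕ,
    ∃ N : Subgroup (FundamentalGroup BGamma b), N.Normal ∧ N ≠ ⊤ ∧ (∀ m, c m ∈ N ↔ m ∈ S) ∧
      ∀ x ∈ N, ∀ g : C(Circle, BGamma), IsTransverse g → ¬ Represents x g := by
  have hQ : ∀ n, ∃ _ : Path b (powLoop (q n) (q_odd n) (Circle.exp 0)), True := by
    intro n
    obtain ⟨Q⟩ := joined_all b (powLoop (q n) (q_odd n) (Circle.exp 0))
    exact ⟨Q, trivial⟩
  choose Q0 _ using hQ
  let Q : ∀ n, Path.Homotopic.Quotient b (powLoop (q n) (q_odd n) (Circle.exp 0)) :=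
    fun n => Path.Homotopic.Quotient.mk (Q0 n)
  let R : ∀ n, Path.Homotopic.Quotient (powLoop (q n) (q_odd n) (Circle.exp 0))
      (powLoop (q n) (q_odd n) (Circle.exp 0)) :=
    fun n => Path.Homotopic.Quotient.mk (loopPath (powLoop (q n) (q_odd n)))
  let c : ℕ → FundamentalGroup BGamma b := fun n => (Q n).trans ((R n).trans (Q n).symm)
  refine ⟨c, fun n => ⟨Q0 n, rfl⟩, fun S => ?_⟩
  set H : Subgroup ℚˣ := HS (q '' S) with hH
  let _ : TopologicalSpace (LineCalc.Univ (exPG H).lineCalc) := ⊥
  have _ : DiscreteTopology (LineCalc.Univ (exPG H).lineCalc) := ⟨rfl⟩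
  have cov := (exSys H).isCoveringMap
  refine ⟨(cov.monodromyPerm b).ker, inferInstance, ?_, fun m => ⟨fun hm => ?_, fun hm => ?_⟩, ?_⟩
  · -- the doubling loop is not in the kernel
    obtain ⟨P⟩ := joined_all b (doubleLoop (Circle.exp 0))
    let P' : Path.Homotopic.Quotient b (doubleLoop (Circle.exp 0)) := Path.Homotopic.Quotient.mk P
    let R' : Path.Homotopic.Quotient (doubleLoop (Circle.exp 0)) (doubleLoop (Circle.exp 0)) :=
      Path.Homotopic.Quotient.mk (loopPath doubleLoop)
    let g : FundamentalGroup BGamma b := P'.trans (R'.trans P'.symm)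
    intro htop
    have hg : g ∈ (cov.monodromyPerm b).ker := by rw [htop]; exact Subgroup.mem_top _
    rw [MonoidHom.mem_ker] at hg
    let e : ((exSys H).core.proj) ⁻¹' {b} :=
      ⟨⟨b, (1 : LineCalc.Univ (exPG H).lineCalc)⟩, rfl⟩
    have h1 : cov.monodromy (P'.trans (R'.trans P'.symm)) e = e := by
      have := congrArg (fun σ : Equiv.Perm (((exSys H).core.proj) ⁻¹' {b}) => σ e) hg
      exact this
    rw [monodromy_conj] at h1
    obtain ⟨F, hF, hc⟩ := closed_lift cov (loopPath doubleLoop) _ h1
    exact double_not_lift_path' H F hF hc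
  · -- a power loop in the kernel lifts, so its exponent is allowed
    rw [MonoidHom.mem_ker] at hm
    let e : ((exSys H).core.proj) ⁻¹' {b} :=
      ⟨⟨b, (1 : LineCalc.Univ (exPG H).lineCalc)⟩, rfl⟩
    have h1 : cov.monodromy ((Q m).trans ((R m).trans (Q m).symm)) e = e := by
      have := congrArg (fun σ : Equiv.Perm (((exSys H).core.proj) ⁻¹' {b}) => σ e) hm
      exact this
    rw [monodromy_conj] at h1
    obtain ⟨F, hF, hc⟩ := closed_lift cov (loopPath (powLoop (q m) (q_odd m))) _ h1
    have h2 := pow_not_lift_path (q_odd m) H F hF hc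
    obtain ⟨k, hk, hkm⟩ := of_HS_mem (q_prime m) h2
    rwa [q_injective hkm] at hk
  · -- power loops with allowed exponents are in the kernel
    rw [MonoidHom.mem_ker]
    obtain ⟨r, hr, hrl⟩ := HS_mem (T := q '' S) (q_prime m) ⟨m, hm, rfl⟩
    apply Equiv.ext
    intro e
    show cov.monodromy ((Q m).trans ((R m).trans (Q m).symm)) e = e
    rw [monodromy_conj]
    set e' := cov.monodromy (Q m) e with he'
    obtain ⟨F, hF, hF0⟩ := pow_lift (q_odd m) H hr hrl ((exSys H).cd 0 e'.1)
    have hp : (F (Circle.exp 0)).proj = e'.1.proj := (hF _).trans e'.2.symm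
    have ht : 0 < (powLoop (q m) (q_odd m) (Circle.exp 0)).t 0 := by
      show 0 < 1 - (1 + im (Circle.exp 0)) / 2
      rw [im_exp, Real.sin_zero]
      norm_num
    have hFe : F (Circle.exp 0) = e'.1 := by
      refine (exSys H).ext_cd (i := 0) hp (by rw [hF]; exact ht) ?_
      rw [hF0 _ ht]
    have h0 : pathOfLift F 0 = e'.1 := by
      show F (Circle.exp (2 * Real.pi * ((0 : unitInterval) : ℝ))) = e'.1
      rw [← hFe]; simp
    exact monodromy_of_closed cov (loopPath (powLoop (q m) (q_odd m))) e' (pathOfLift F)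
      (fun s => hF _) h0 ((pathOfLift_one F).trans h0)
  · -- no transverse loop represents an element of the kernel
    rintro x hx g hT ⟨P, rfl⟩
    rw [MonoidHom.mem_ker] at hx
    let e : ((exSys H).core.proj) ⁻¹' {b} :=
      ⟨⟨b, (1 : LineCalc.Univ (exPG H).lineCalc)⟩, rfl⟩
    have h1 : cov.monodromy ((Path.Homotopic.Quotient.mk P).trans
        ((Path.Homotopic.Quotient.mk (loopPath g)).trans
          (Path.Homotopic.Quotient.mk P).symm)) e = e := by
      have := congrArg (fun σ : Equiv.Perm (((exSys H).core.proj) ⁻¹' {b}) => σ e) hx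
      exact this
    rw [monodromy_conj] at h1
    obtain ⟨F, hF, hc⟩ := closed_lift cov (loopPath g) _ h1
    obtain ⟨F', hF'⟩ := circle_lift (exSys H).core.proj g F hF hc
    exact not_lift_of_transverse (exPG H) (exPG_of H) g hT F' hF'

end Pool.Agent.Y490.HG
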