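import Pool.Agent.Helper240.Inst

/-!
Order of contact exponents, and the pseudogroups of germs with analytically parametrized graph
whose exponent lies in a given subgroup of the multiplicative group of the rational numbers.
-/

set_option autoImplicit false

open Filter Topology Set Pool.Agent.Helper240

namespace Pool.Agent.Y490.HG

/-- The exponent of `f` at `x`: `|f y - f x|` is of size `|y - x| ^ r` up to subpolynomial factors. -/
def HasExp (f : ℝ → ℝ) (x r : ℝ) : Prop :=
  Tendsto (fun y => Real.log |f y - f x| / Real.log |y - x|) (𝓝[≠] x) (𝓝 r)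

theorem HasExp.congr {f g : ℝ → ℝ} {x r : ℝ} (h : HasExp f x r) (hfg : f =ᶠ[𝓝 x] g) :
    HasExp g x r := by
  refine Tendsto.congr' ?_ h
  have h0 : f x = g x := hfg.self_of_nhds
  filter_upwards [hfg.filter_mono nhdsWithin_le_nhds] with y hy
  rw [hy, h0]

theorem HasExp.unique {f : ℝ → ℝ} {x r r' : ℝ} (h : HasExp f x r) (h' : HasExp f x r') : r = r' :=
  tendsto_nhds_unique h h'

/-- The logarithm of the distance does not vanish near the point. -/
theorem log_ne (x : ℝ) : ∀ᶠ y in 𝓝[≠] x, Real.log |y - x| ≠ 0 := by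
  have h1 : ∀ᶠ y in 𝓝 x, |y - x| < 1 := by
    have : ContinuousAt (fun y : ℝ => |y - x|) x := by fun_prop
    exact this.eventually (gt_mem_nhds (by simp))
  filter_upwards [h1.filter_mono nhdsWithin_le_nhds, self_mem_nhdsWithin] with y hy hy'
  have h2 : 0 < |y - x| := abs_pos.mpr (sub_ne_zero.mpr hy')
  exact (Real.log_neg h2 hy).ne

theorem log_tendsto (x : ℝ) : Tendsto (fun y => Real.log |y - x|) (𝓝[≠] x) atBot := by
  have h1 : Tendsto (fun y : ℝ => y - x) (𝓝[≠] x) (𝓝[≠] 0) := by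
    rw [tendsto_nhdsWithin_iff]
    constructor
    · have : ContinuousAt (fun y : ℝ => y - x) x := by fun_prop
      have := this.tendsto
      simp only [sub_self] at this
      exact this.mono_left nhdsWithin_le_nhds
    · filter_upwards [self_mem_nhdsWithin] with y hy
      exact sub_ne_zero.mpr hy
  have h2 := Real.tendsto_log_nhdsNE_zero.comp h1
  refine h2.congr fun y => ?_
  simp [Function.comp]

theorem hasExp_id (x : ℝ) : HasExp (fun y => y) x 1 := by
  refine Tendsto.congr' ?_ tendsto_const_nhds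
  filter_upwards [log_ne x] with y hy
  exact (div_self hy).symm

theorem hasExp_pow {d : ℕ} (hd : d ≠ 0) : HasExp (fun y => y ^ d) 0 d := by
  refine Tendsto.congr' ?_ tendsto_const_nhds
  filter_upwards [log_ne 0] with y hy
  simp only [sub_zero] at hy
  simp only [zero_pow hd, sub_zero, abs_pow, Real.log_pow]
  field_simp

theorem hasExp_isAn {f : ℝ → ℝ} {x : ℝ} (h : IsAn f x) : HasExp f x 1 := by
  have h1 : Tendsto (slope f x) (𝓝[≠] x) (𝓝 (deriv f x)) :=
    hasDerivAt_iff_tendsto_slope.mp h.1.differentiableAt.hasDerivAt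
  have h2 : Tendsto (fun y => Real.log |slope f x y|) (𝓝[≠] x) (𝓝 (Real.log |deriv f x|)) := by
    have h3 : ContinuousAt (fun s : ℝ => Real.log |s|) (deriv f x) := by
      have : ContinuousAt Real.log |deriv f x| :=
        Real.continuousAt_log (abs_pos.mpr h.2.ne').ne'
      exact ContinuousAt.comp (g := Real.log) (f := fun s : ℝ => |s|) this (by fun_prop)
    exact h3.tendsto.comp h1
  have h4 : Tendsto (fun y => Real.log |slope f x y| / Real.log |y - x|) (𝓝[≠] x) (𝓝 0) :=
    h2.div_atBot (log_tendsto x)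
  have h5 : Tendsto (fun y => Real.log |slope f x y| / Real.log |y - x| + 1) (𝓝[≠] x) (𝓝 (0 + 1)) :=
    h4.add tendsto_const_nhds
  rw [zero_add] at h5
  refine Tendsto.congr' ?_ h5
  have h6 : ∀ᶠ y in 𝓝[≠] x, 0 < slope f x y := h1.eventually (lt_mem_nhds h.2)
  filter_upwards [h6, log_ne x, self_mem_nhdsWithin] with y a1 a2 a3
  have a4 : y - x ≠ 0 := sub_ne_zero.mpr a3
  have a5 : f y - f x = slope f x y * (y - x) := by
    rw [slope_def_field, div_mul_cancel₀ _ a4]
  rw [a5, abs_mul, Real.log_mul (abs_pos.mpr a1.ne').ne' (abs_pos.mpr a4).ne']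
  field_simp

theorem HasExp.comp {f g : ℝ → ℝ} {x r r' : ℝ} (hf : IsPx f x) (h : HasExp f x r)
    (h' : HasExp g (f x) r') : HasExp (fun y => g (f y)) x (r' * r) := by
  obtain ⟨s, hs, hm⟩ := hf.mono
  have hc : ContinuousAt f x := pxPG.cont hf
  have hx : x ∈ s := mem_of_mem_nhds hs
  have h1 : Tendsto f (𝓝[≠] x) (𝓝[≠] (f x)) := by
    rw [tendsto_nhdsWithin_iff]
    refine ⟨hc.tendsto.mono_left nhdsWithin_le_nhds, ?_⟩
    filter_upwards [mem_nhdsWithin_of_mem_nhds hs, self_mem_nhdsWithin] with y a1 a2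
    exact fun e => a2 (hm.injOn a1 hx e)
  have h2 := Tendsto.comp (show Tendsto (fun y => Real.log |g y - g (f x)| / Real.log |y - f x|) (𝓝[≠] (f x)) (𝓝 r') from h') h1
  have h3 := Tendsto.mul h2 (show Tendsto (fun y => Real.log |f y - f x| / Real.log |y - x|) (𝓝[≠] x) (𝓝 r) from h)
  refine Tendsto.congr' ?_ h3
  filter_upwards [h1.eventually (log_ne (f x))] with y hy
  simp only [Function.comp]
  field_simp

theorem HasExp.inv {f g : ℝ → ℝ} {x r : ℝ} (hf : IsPx f x) (h : HasExp f x r) (hr : r ≠ 0)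
    (hg : ∀ᶠ y in 𝓝 x, g (f y) = y) : HasExp g (f x) r⁻¹ := by
  have h1 := Tendsto.inv₀ (show Tendsto (fun y => Real.log |f y - f x| / Real.log |y - x|) (𝓝[≠] x) (𝓝 r) from h) hr
  intro W hW
  have h2 : ∀ᶠ y in 𝓝[≠] x, (Real.log |f y - f x| / Real.log |y - x|)⁻¹ ∈ W := h1 hW
  have h3 : ∀ᶠ z in 𝓝[≠] (f x), Real.log |g z - g (f x)| / Real.log |z - f x| ∈ W := by
    rw [eventually_nhdsWithin_iff] at h2 ⊢
    apply pxPG.of_image (f := f) (x := x) hf
    filter_upwards [h2, hg] with y a1 a2 a3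
    have hxy : y ≠ x := fun e => a3 (by rw [e]; rfl)
    have a4 := a1 hxy
    rw [a2, hg.self_of_nhds]
    rwa [inv_div] at a4
  exact h3

/-- Off the point the germs with analytically parametrized graph are analytic diffeomorphisms. -/
theorem isAn_near {f : ℝ → ℝ} {x : ℝ} (h : IsPx f x) : ∀ᶠ y in 𝓝[≠] x, IsAn f y := by
  obtain ⟨u, v, hu, hv, rfl, huv⟩ := h
  have key : ∀ w : ℝ → ℝ, Good w → ∀ᶠ t in 𝓝[≠] (0 : ℝ), IsAn w t := by
    rintro w ⟨hw, s, hs, hm⟩
    rcases hw.deriv.eventually_eq_zero_or_eventually_ne_zero with h0 | h0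
    · exfalso
      have h1 : ∀ᶠ t in 𝓝 (0 : ℝ), deriv w t = 0 ∧ AnalyticAt ℝ w t ∧ t ∈ s :=
        h0.and (hw.eventually_analyticAt.and hs)
      obtain ⟨ε, hε, hball⟩ := Metric.eventually_nhds_iff_ball.mp h1
      have h2 : w 0 = w (ε / 2) := by
        have hd : DifferentiableOn ℝ w (Metric.ball 0 ε) := fun t ht =>
          (hball t ht).2.1.differentiableAt.differentiableWithinAt
        refine IsOpen.is_const_of_deriv_eq_zero Metric.isOpen_ball
          (convex_ball (0 : ℝ) ε).isPreconnected hd (fun t ht => (hball t ht).1)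
          (Metric.mem_ball_self hε) ?_
        rw [Metric.mem_ball, Real.dist_eq, sub_zero, abs_of_pos (by linarith)]
        linarith
      have h3 : w 0 < w (ε / 2) := by
        refine hm (hball 0 (Metric.mem_ball_self hε)).2.2 (hball (ε / 2) ?_).2.2 (by linarith)
        rw [Metric.mem_ball, Real.dist_eq, sub_zero, abs_of_pos (by linarith)]
        linarith
      linarith
    · have h1 : ∀ᶠ t in 𝓝 (0 : ℝ), AnalyticAt ℝ w t ∧ s ∈ 𝓝 t :=
        hw.eventually_analyticAt.and (eventually_eventually_nhds.mpr hs)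
      filter_upwards [h0, h1.filter_mono nhdsWithin_le_nhds] with t a1 a2
      refine ⟨a2.1, lt_of_le_of_ne ?_ (Ne.symm a1)⟩
      have hmono : MonotoneOn w s := hm.monotoneOn
      have := hmono.derivWithin_nonneg (x := t)
      rwa [derivWithin_of_mem_nhds a2.2] at this
  have hu' := key u hu
  have hv' := key v hv
  obtain ⟨s, hs, hm⟩ := hu.2
  have h0s : (0 : ℝ) ∈ s := mem_of_mem_nhds hs
  rw [eventually_nhdsWithin_iff] at hu' hv' ⊢
  apply good_of_image hu
  filter_upwards [hu', hv', eventually_eventually_nhds.mpr huv, hs] with t a1 a2 a3 a4 a5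
  have ht : t ≠ 0 := fun e => a5 (by rw [e]; rfl)
  have b1 := a1 ht
  have b2 := a2 ht
  obtain ⟨g, g1, g2, g3⟩ := b1.inv
  have hgt : g (u t) = t := g2.self_of_nhds
  have hc : Tendsto g (𝓝 (u t)) (𝓝 t) := by
    have := g1.1.continuousAt.tendsto
    rwa [hgt] at this
  have h4 : IsAn (fun z => v (g z)) (u t) := g1.comp (by rw [hgt]; exact b2)
  refine h4.congr ?_
  filter_upwards [g3, hc.eventually a3] with z z1 z2
  rw [← z2, z1]

/-- The pseudogroup of the germs with analytically parametrized increasing graph whose exponent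
lies in the subgroup `H`. -/
noncomputable def exPG (H : Subgroup ℚˣ) : PG where
  P f x := IsPx f x ∧ ∃ r ∈ H, HasExp f x ((r : ℚ) : ℝ)
  congr := by
    rintro f g x ⟨h, r, hr, hr'⟩ hfg
    exact ⟨pxPG.congr h hfg, r, hr, hr'.congr hfg⟩
  one x := ⟨pxPG.one x, 1, H.one_mem, by simpa using hasExp_id x⟩
  opn := by
    rintro f x ⟨h, r, hr, hr'⟩
    have h1 := isAn_near h
    rw [eventually_nhdsWithin_iff] at h1
    filter_upwards [h1, pxPG.opn h] with y a1 a2
    by_cases hy : y = x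
    · subst hy; exact ⟨h, r, hr, hr'⟩
    · exact ⟨a2, 1, H.one_mem, by simpa using hasExp_isAn (a1 hy)⟩
  cont h := pxPG.cont h.1
  mono h := pxPG.mono h.1
  comp := by
    rintro f g x ⟨h, r, hr, hr'⟩ ⟨k, q, hq, hq'⟩
    refine ⟨pxPG.comp h k, q * r, H.mul_mem hq hr, ?_⟩
    have := hr'.comp h hq'
    simpa using this
  inv := by
    rintro f x ⟨h, r, hr, hr'⟩
    obtain ⟨g, h1, h2⟩ := pxPG.inv h
    refine ⟨g, ⟨h1, r⁻¹, H.inv_mem hr, ?_⟩, h2⟩
    have := hr'.inv h (by exact_mod_cast r.ne_zero) h2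
    simpa using this
  uniq h k := pxPG.uniq h.1 k.1

theorem exPG_of (H : Subgroup ℚˣ) : ∀ f x, IsAn f x → (exPG H).P f x := fun _ _ h =>
  ⟨isPx_of_isAn h, 1, H.one_mem, by simpa using hasExp_isAn h⟩

theorem isPx_pow {d : ℕ} (hd : Odd d) (x : ℝ) : IsPx (fun y => y ^ d) x := by
  have hg : Good (fun t => x + t) :=
    ⟨by fun_prop, univ, univ_mem, fun a _ b _ hab => by simpa using hab⟩
  refine ⟨fun t => x + t, fun t => (x + t) ^ d, hg, ⟨by fun_prop, univ, univ_mem, ?_⟩, by simp,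
    Eventually.of_forall fun t => rfl⟩
  intro a _ b _ hab
  exact hd.strictMono_pow (by linarith : x + a < x + b)

theorem isAn_pow {d : ℕ} (hd : Odd d) {x : ℝ} (hx : x ≠ 0) : IsAn (fun y => y ^ d) x := by
  refine ⟨by fun_prop, ?_⟩
  have : deriv (fun y : ℝ => y ^ d) x = d * x ^ (d - 1) := by simp
  rw [this]
  have h1 : Even (d - 1) := by
    obtain ⟨k, rfl⟩ := hd
    exact ⟨k, by omega⟩
  have h2 : 0 < x ^ (d - 1) := h1.pow_pos hx
  have h3 : 0 < (d : ℝ) := by exact_mod_cast hd.pos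
  positivity

/-- Powers with an exponent in `H` belong to the pseudogroup everywhere. -/
theorem exPG_pow {H : Subgroup ℚˣ} {d : ℕ} (hd : Odd d) {r : ℚˣ} (hr : r ∈ H)
    (hrd : (r : ℚ) = d) (x : ℝ) : (exPG H).P (fun y => y ^ d) x := by
  by_cases hx : x = 0
  · subst hx
    refine ⟨isPx_pow hd 0, r, hr, ?_⟩
    rw [hrd]
    simpa using hasExp_pow hd.pos.ne'
  · exact exPG_of H _ _ (isAn_pow hd hx)

/-- The power `d` belongs to the pseudogroup at zero only if `d` is in `H`. -/
theorem exPG_pow_zero {H : Subgroup ℚˣ} {d : ℕ} (hd : Odd d)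
    (h : (exPG H).P (fun y => y ^ d) 0) : ∃ r ∈ H, (r : ℚ) = d := by
  obtain ⟨_, r, hr, hr'⟩ := h
  refine ⟨r, hr, ?_⟩
  have := hr'.unique (hasExp_pow hd.pos.ne')
  exact_mod_cast this

end Pool.Agent.Y490.HG
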