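import Pool.Agent.Helper240.Conn
import Pool.Agent.Y490.HG.Exp

/-!
The loops of the classifying space given by `y ↦ y ^ d`, `d` odd.
-/

set_option autoImplicit false
set_option linter.unusedSectionVars false

open Filter Topology Set Pool.Agent.Helper240

namespace Pool.Agent.Y490.HG

/-- The real root of odd order. -/
noncomputable def rt (d : ℕ) (y : ℝ) : ℝ :=
  if 0 < y then Real.exp (Real.log y / d) else -Real.exp (Real.log (-y) / d)

theorem rt_pow {d : ℕ} (hd : Odd d) {x : ℝ} (hx : x ≠ 0) : rt d (x ^ d) = x := by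
  have hdR : (d : ℝ) ≠ 0 := by exact_mod_cast hd.pos.ne'
  unfold rt
  rcases lt_or_gt_of_ne hx with h | h
  · have h3 : x ^ d < 0 := hd.pow_neg h
    rw [if_neg (not_lt.mpr h3.le)]
    have h4 : -x ^ d = (-x) ^ d := by rw [hd.neg_pow]
    rw [h4, Real.log_pow]
    have h5 : (d : ℝ) * Real.log (-x) / d = Real.log (-x) := by field_simp
    rw [h5, Real.exp_log (by linarith)]
    ring
  · have h3 : 0 < x ^ d := pow_pos h d
    rw [if_pos h3, Real.log_pow]
    have h5 : (d : ℝ) * Real.log x / d = Real.log x := by field_simp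
    rw [h5, Real.exp_log h]

theorem pow_rt {d : ℕ} (hd : Odd d) {y : ℝ} (hy : y ≠ 0) : rt d y ^ d = y := by
  have hdR : (d : ℝ) ≠ 0 := by exact_mod_cast hd.pos.ne'
  unfold rt
  rcases lt_or_gt_of_ne hy with h | h
  · rw [if_neg (not_lt.mpr h.le)]
    rw [hd.neg_pow, ← Real.exp_nat_mul]
    have h5 : (d : ℝ) * (Real.log (-y) / d) = Real.log (-y) := by field_simp
    rw [h5, Real.exp_log (by linarith)]
    ring
  · rw [if_pos h, ← Real.exp_nat_mul]
    have h5 : (d : ℝ) * (Real.log y / d) = Real.log y := by field_simp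
    rw [h5, Real.exp_log h]

theorem isAn_rt {d : ℕ} (hd : Odd d) {x : ℝ} (hx : x ≠ 0) : IsAn (rt d) (x ^ d) := by
  obtain ⟨g, h1, h2, _⟩ := (isAn_pow hd hx).inv
  refine IsAn.congr h1 ?_
  refine anPG.inv_unique (f := fun y => y ^ d) (x := x) (isAn_pow hd hx) h2 ?_
  filter_upwards [isOpen_ne.mem_nhds hx] with y hy
  exact rt_pow hd hy

/-- Edge data of the power loop. -/
noncomputable def powData (d : ℕ) (hd : Odd d) (z : Circle) : EdgeData where
  s := (1 + im z) / 2
  x0 := re z
  x1 := re z ^ d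
  f := fun y => y ^ d
  k := rt d
  s0 := by linarith [neg_le_im z]
  s1 := by linarith [im_le z]
  hf h0 h1 := isAn_pow hd (re_ne_zero (by linarith) (by linarith))
  hk h0 h1 := isAn_rt hd (re_ne_zero (by linarith) (by linarith))
  hfx _ _ := rfl
  hkf h0 h1 := by
    filter_upwards [isOpen_ne.mem_nhds (re_ne_zero (z := z) (by linarith) (by linarith))] with y hy
    exact rt_pow hd hy
  hfk h0 h1 := by
    have h : re z ^ d ≠ 0 := pow_ne_zero d (re_ne_zero (z := z) (by linarith) (by linarith))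
    filter_upwards [isOpen_ne.mem_nhds h] with y hy
    exact pow_rt hd hy

/-- The power loop. -/
noncomputable def powLoop (d : ℕ) (hd : Odd d) : C(Circle, BGamma) where
  toFun z := (powData d hd z).pt
  continuous_toFun := by
    apply continuous_pt
    · exact (continuous_const.add continuous_im).div_const 2
    · exact continuous_re
    · exact continuous_re.pow d
    · intro x _ _
      exact Eventually.of_forall fun y => ⟨rfl, rfl⟩

variable {d : ℕ} (hd : Odd d)

theorem pow_right : IsGermOf ((powLoop d hd (Circle.exp 0)).γ 1 0) (fun y => y ^ d) 1 := by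
  have h := (powData d hd (Circle.exp 0)).gg10
    (by show 0 < (1 + im (Circle.exp 0)) / 2; rw [im_exp]; simp)
    (by show (1 + im (Circle.exp 0)) / 2 < 1; rw [im_exp]; simp; norm_num)
  have e : (powData d hd (Circle.exp 0)).x0 = 1 := by
    show re (Circle.exp 0) = 1
    rw [re_exp, Real.cos_zero]
  rw [e] at h
  exact h

theorem pow_left : IsGermOf ((powLoop d hd (Circle.exp Real.pi)).γ 1 0) (fun y => y ^ d) (-1) := by
  have h := (powData d hd (Circle.exp Real.pi)).gg10
    (by show 0 < (1 + im (Circle.exp Real.pi)) / 2; rw [im_exp]; simp)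
    (by show (1 + im (Circle.exp Real.pi)) / 2 < 1; rw [im_exp]; simp; norm_num)
  have e : (powData d hd (Circle.exp Real.pi)).x0 = -1 := by
    show re (Circle.exp Real.pi) = -1
    rw [re_exp, Real.cos_pi]
  rw [e] at h
  exact h

variable (H : Subgroup ℚˣ)

/-- The local system of the pseudogroup `exPG H`. -/
noncomputable def exSys : LocSys (LineCalc.Univ (exPG H).lineCalc) := sys (exPG H) (exPG_of H)

theorem pow_not_lift_path [TopologicalSpace (LineCalc.Univ (exPG H).lineCalc)]
    [DiscreteTopology (LineCalc.Univ (exPG H).lineCalc)] (F : C(unitInterval, (exSys H).Tot))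
    (hF : ∀ s : unitInterval, (F s).proj = loopPath (powLoop d hd) s) (hclosed : F 1 = F 0) :
    ∃ r ∈ H, (r : ℚ) = d := by
  have h := eq_of_lift_path (exSys H) (powData d hd) (powLoop d hd) (fun z => rfl) (fun z => rfl)
    F hF hclosed
  have h2 : toElt (exPG H) (exPG_of H) ((powLoop d hd (Circle.exp 0)).γ 1 0) =
      toElt (exPG H) (exPG_of H) ((powLoop d hd (Circle.exp Real.pi)).γ 1 0) :=
    LineCalc.gen_injective h
  rw [toElt_eq (exPG H) (exPG_of H) (pow_right hd), toElt_eq (exPG H) (exPG_of H) (pow_left hd),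
    PG.elt_eq_iff] at h2
  obtain ⟨f, hf1, hf2, hf3⟩ := h2
  have hsub : ∀ z ∈ uIcc (1 : ℝ) 0, z ∈ uIcc (1 : ℝ) (-1) := by
    intro z hz
    rw [uIcc_of_ge (by norm_num)] at hz ⊢
    exact ⟨by linarith [hz.1], hz.2⟩
  have hnear : (fun y : ℝ => y ^ d) =ᶠ[𝓝 (0 : ℝ)] f :=
    pxPG.continuation (x := 1) (y := 0) (fun z _ => isPx_pow hd z)
      (fun z hz => (hf1 z (hsub z hz)).1) hf2
  have h0 : (exPG H).P f 0 := hf1 0 (hsub 0 right_mem_uIcc)
  exact exPG_pow_zero hd ((exPG H).congr h0 hnear.symm)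

theorem double_not_lift_path' [TopologicalSpace (LineCalc.Univ (exPG H).lineCalc)]
    [DiscreteTopology (LineCalc.Univ (exPG H).lineCalc)] (F : C(unitInterval, (exSys H).Tot))
    (hF : ∀ s : unitInterval, (F s).proj = loopPath doubleLoop s) (hclosed : F 1 = F 0) :
    False := by
  have h := eq_of_lift_path (exSys H) doubleData doubleLoop (fun z => rfl) (fun z => rfl) F hF hclosed
  have h2 : toElt (exPG H) (exPG_of H) ((doubleLoop (Circle.exp 0)).γ 1 0) =
      toElt (exPG H) (exPG_of H) ((doubleLoop (Circle.exp Real.pi)).γ 1 0) :=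
    LineCalc.gen_injective h
  rw [toElt_eq (exPG H) (exPG_of H) double_right, toElt_eq (exPG H) (exPG_of H) double_left,
    PG.elt_eq_mk_iff] at h2
  have h3 : deriv (fun y : ℝ => 2 * y) 0 = deriv (fun y : ℝ => y) 0 := h2.deriv_eq
  simp at h3

/-- The power loop lifts to the covering attached to the pseudogroup if `d` is in `H`. -/
theorem pow_lift [TopologicalSpace (LineCalc.Univ (exPG H).lineCalc)]
    [DiscreteTopology (LineCalc.Univ (exPG H).lineCalc)] {r : ℚˣ} (hr : r ∈ H) (hrd : (r : ℚ) = d)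
    (c : LineCalc.Univ (exPG H).lineCalc) :
    ∃ F : C(Circle, (exSys H).Tot), (∀ z, (F z).proj = powLoop d hd z) ∧
      ∀ z, 0 < (powLoop d hd z).t 0 → (exSys H).cd 0 (F z) = c := by
  set κ := (exPG H).lineCalc.gen ((exPG H).elt (fun y => y ^ d) 0 (exPG_pow hd hr hrd 0)) with hκ
  have hκ10 : ∀ z, 0 < (powLoop d hd z).t 0 → 0 < (powLoop d hd z).t 1 →
      (exSys H).φ ((powLoop d hd z).γ 1 0) = κ := by
    intro z h0 h1
    have h0' : (powData d hd z).s < 1 := by
      have : 0 < 1 - (powData d hd z).s := h0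
      linarith
    have hg : IsGermOf ((powLoop d hd z).γ 1 0) (fun y => y ^ d) (re z) :=
      (powData d hd z).gg10 h1 h0'
    show (exPG H).lineCalc.gen (toElt (exPG H) (exPG_of H) ((powLoop d hd z).γ 1 0)) = κ
    rw [toElt_eq (exPG H) (exPG_of H) hg, hκ]
    congr 1
    have hc : ∀ w, (exPG H).P (fun y => y ^ d) w := fun w => exPG_pow hd hr hrd w
    exact (exPG H).elt_continuation (f := fun y => y ^ d) fun w _ => hc w
  have hinv : ∀ i z, 0 < (powLoop d hd z).t i → (exSys H).φ ((powLoop d hd z).γ i i) = 1 :=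
    fun i z hi => (exSys H).diag hi
  let u : ℕ → Circle → LineCalc.Univ (exPG H).lineCalc := fun i _ => if i = 0 then c else c * κ
  obtain ⟨F, h1, h2⟩ := (exSys H).exists_lift (powLoop d hd) u
    (fun i x _ => Eventually.of_forall fun y => rfl) (by
      intro i j z hi hj
      rcases (powData d hd z).pos_cases hi with ⟨rfl, a⟩ | ⟨rfl, a⟩ <;>
        rcases (powData d hd z).pos_cases hj with ⟨rfl, b⟩ | ⟨rfl, b⟩
      · rw [hinv 0 z hi, mul_one]
      · rw [hκ10 z hi hj]; simp [u]
      · have e1 := (exSys H).comp _ _ _ ((powLoop d hd z).cocycle 0 1 0 hj hi hj)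
        rw [hκ10 z hj hi, hinv 0 z hj] at e1
        have e2 : (exSys H).φ ((powLoop d hd z).γ 0 1) = κ⁻¹ := eq_inv_of_mul_eq_one_right e1
        rw [e2]; simp [u]
      · rw [hinv 1 z hi, mul_one])
  exact ⟨F, h1, fun z hz => by rw [h2 0 z hz]; simp [u]⟩

end Pool.Agent.Y490.HG
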